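import Mathlib

set_option autoImplicit false

namespace Pool.Agent.Results.MP_26893d_co.Linear

open Finset

/-- sign of a right-hand vertex -/
def sg {n : ℕ} (v : Fin n) : ℝ := if v.val % 2 = 0 then 1 else -1

lemma abs_sg {n : ℕ} (v : Fin n) : |sg v| = 1 := by
  unfold sg
  split_ifs <;> simp

lemma sum_sg (m : ℕ) : ∑ v : Fin (2 * m), sg v = 0 := by
  have : ∀ m : ℕ, ∑ i ∈ range (2 * m), (if i % 2 = 0 then (1 : ℝ) else -1) = 0 := by
    intro m
    induction m with
    | zero => simp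
    | succ m ih =>
      rw [show 2 * (m + 1) = 2 * m + 1 + 1 by ring, sum_range_succ, sum_range_succ, ih,
        if_pos (by omega), if_neg (by omega)]
      ring
  rw [← this m, ← Fin.sum_univ_eq_sum_range (fun i => if i % 2 = 0 then (1 : ℝ) else -1)]
  rfl

theorem result : ¬ ∃ C : ℝ, ∀ (n k : ℕ), 1 ≤ n → 1 ≤ k →
    ∀ h : Fin n → Fin n → Fin k → ℝ, (∀ u v, ∑ i, |h u v i| ≤ 1) →
      ∃ σ : Equiv.Perm (Fin n),
        ∑ i, |∑ u, h u (σ u) i - (1 / (n : ℝ)) * ∑ u, ∑ v, h u v i| ≤ C * Real.sqrt k := by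
  rintro ⟨C, hC⟩
  obtain ⟨m, hm⟩ := exists_nat_gt (C ^ 2)
  obtain ⟨σ, hσ⟩ := hC (2 * (m + 1)) (2 * (m + 1)) (by omega) (by omega)
    (fun u v i => if i = u then sg v else 0) (by
      intro u v
      rw [sum_eq_single u (fun b _ hb => by simp [hb]) (by simp)]
      simp [abs_sg])
  have e : ∀ i : Fin (2 * (m + 1)),
      |∑ u, (if i = u then sg (σ u) else 0) - (1 / ((2 * (m + 1) : ℕ) : ℝ)) *
        ∑ u, ∑ v : Fin (2 * (m + 1)), (if i = u then sg v else 0)| = 1 := by
    intro i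
    have h1 : ∑ u, ∑ v : Fin (2 * (m + 1)), (if i = u then sg v else 0) = 0 := by
      apply sum_eq_zero
      intro u _
      by_cases h : i = u
      · simp only [h, if_true]
        exact sum_sg (m + 1)
      · simp [h]
    rw [h1, mul_zero, sub_zero, sum_ite_eq]
    simp [abs_sg]
  rw [sum_congr rfl (fun i _ => e i)] at hσ
  simp only [sum_const, card_univ, Fintype.card_fin, nsmul_eq_mul, mul_one] at hσ
  set N : ℝ := ((2 * (m + 1) : ℕ) : ℝ) with hN
  have hm0 : (0 : ℝ) ≤ m := Nat.cast_nonneg _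
  have hN' : N = 2 * (m + 1) := by
    rw [hN]
    push_cast
    ring
  have hpos : 0 < N := by linarith
  have hs := Real.sqrt_pos.mpr hpos
  have hsq := Real.mul_self_sqrt hpos.le
  have h1 : Real.sqrt N ≤ C := by
    by_contra hc
    push Not at hc
    nlinarith
  nlinarith

end Pool.Agent.Results.MP_26893d_co.Linear
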